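import Pool.Agent.N326.AV.Fixed

/-!
# Arithmetic Kakeya: the Assouad form and the self-similar form

The infimum of the Assouad dimensions of the bounded sets of `ℝ^n` that contain a `k`-term
progression with every common difference in `[0,1]^n` is the infimum `f^M_n(k)` of their upper
Minkowski dimensions, and so is the infimum of the lower Minkowski dimensions, and the infimum of the
Hausdorff dimensions of the self-similar sets `⋃ d, (K + d)/N = K` of this kind.
-/

set_option autoImplicit false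

open Filter Topology
open scoped ENNReal

namespace Pool.Agent.Results.MP_4b405e_nt.AssouadVersion

/-- The least number of sets of diameter at most `δ` covering `B` (for bounded `B`). -/
noncomputable def coverNum {n : ℕ} (B : Set (EuclideanSpace ℝ (Fin n))) (δ : ℝ) : ℕ :=
  sInf {N | ∃ U : Fin N → Set (EuclideanSpace ℝ (Fin n)),
    (∀ i, ∀ x ∈ U i, ∀ y ∈ U i, dist x y ≤ δ) ∧ B ⊆ ⋃ i, U i}

/-- `B` contains a `k`-term progression with every common difference in `[0,1]^n`. -/
def HasProgressions {n : ℕ} (k : ℕ) (B : Set (EuclideanSpace ℝ (Fin n))) : Prop :=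
  ∀ r : EuclideanSpace ℝ (Fin n), (∀ i, r i ∈ Set.Icc (0 : ℝ) 1) →
    ∃ a : EuclideanSpace ℝ (Fin n), ∀ j : ℕ, j < k → a + (j : ℝ) • r ∈ B

/-- Upper Minkowski dimension. -/
noncomputable def upperMinkowski {n : ℕ} (B : Set (EuclideanSpace ℝ (Fin n))) : EReal :=
  limsup (fun δ : ℝ => ((Real.log (coverNum B δ) / Real.log (1 / δ) : ℝ) : EReal)) (𝓝[>] 0)

/-- Lower Minkowski dimension. -/
noncomputable def lowerMinkowski {n : ℕ} (B : Set (EuclideanSpace ℝ (Fin n))) : EReal :=
  liminf (fun δ : ℝ => ((Real.log (coverNum B δ) / Real.log (1 / δ) : ℝ) : EReal)) (𝓝[>] 0)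

/-- `B` is `(C, s)`-regular from above: the part of `B` in a ball of radius `ρ` is covered by
`C (ρ/δ)^s` sets of diameter at most `δ`, for all `0 < δ ≤ ρ`. -/
def RegularAbove {n : ℕ} (B : Set (EuclideanSpace ℝ (Fin n))) (C s : ℝ) : Prop :=
  ∀ (x : EuclideanSpace ℝ (Fin n)) (δ ρ : ℝ), 0 < δ → δ ≤ ρ →
    (coverNum (B ∩ Metric.closedBall x ρ) δ : ℝ) ≤ C * (ρ / δ) ^ s

/-- Assouad dimension: the infimum of the `s ≥ 0` for which `B` is `(C, s)`-regular from above for
some `C`. -/
noncomputable def assouadDim {n : ℕ} (B : Set (EuclideanSpace ℝ (Fin n))) : EReal :=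
  ⨅ (s : ℝ) (_ : 0 ≤ s ∧ ∃ C : ℝ, RegularAbove B C s), (s : EReal)

/-- `f^M_n(k)`, the infimum of the upper Minkowski dimensions of the bounded sets with the
progressions. -/
noncomputable def fM (n k : ℕ) : EReal :=
  ⨅ (B : Set (EuclideanSpace ℝ (Fin n))) (_ : Bornology.IsBounded B) (_ : HasProgressions k B),
    upperMinkowski B

/-- the same infimum for the lower Minkowski dimension -/
noncomputable def fL (n k : ℕ) : EReal :=
  ⨅ (B : Set (EuclideanSpace ℝ (Fin n))) (_ : Bornology.IsBounded B) (_ : HasProgressions k B),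
    lowerMinkowski B

/-- the same infimum for the Assouad dimension -/
noncomputable def fA (n k : ℕ) : EReal :=
  ⨅ (B : Set (EuclideanSpace ℝ (Fin n))) (_ : Bornology.IsBounded B) (_ : HasProgressions k B),
    assouadDim B

/-- the point of `ℝ^n` with the digit vectors `w 0, w 1, …` in base `N` -/
noncomputable def val {n : ℕ} (N : ℕ) (w : ℕ → Fin n → ℤ) : EuclideanSpace ℝ (Fin n) :=
  WithLp.toLp 2 fun c => ∑' i, (w i c : ℝ) * ((N : ℝ) ^ (i + 1))⁻¹

/-- the set of the points all whose digit vectors lie in `D` -/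
def digitSet {n : ℕ} (N : ℕ) (D : Finset (Fin n → ℤ)) : Set (EuclideanSpace ℝ (Fin n)) :=
  {x | ∃ w : ℕ → Fin n → ℤ, (∀ i, w i ∈ D) ∧ x = val N w}

/-- the infimum of the Hausdorff dimensions of the self-similar sets `digitSet N D` with the
progressions -/
noncomputable def fH (n k : ℕ) : EReal :=
  ⨅ (N : ℕ) (D : Finset (Fin n → ℤ)) (_ : 2 ≤ N) (_ : D.Nonempty)
    (_ : HasProgressions k (digitSet N D)), ((dimH (digitSet N D) : ℝ≥0∞) : EReal)

/-- the finite set `D` of integer vectors contains, for every `v ∈ {0, …, N-1}^n`, the `k`-term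
progression with first term `A v` and common difference `v` -/
def Digits {n : ℕ} (k N : ℕ) (A : (Fin n → ℤ) → Fin n → ℤ) (D : Finset (Fin n → ℤ)) : Prop :=
  ∀ v : Fin n → ℤ, (∀ c, 0 ≤ v c ∧ v c < N) → ∀ j : ℕ, j < k → A v + (j : ℤ) • v ∈ D

/-- the infimum of `log |D| / log N` over these finite sets, over all `N ≥ 2` -/
noncomputable def fD (n k : ℕ) : EReal :=
  ⨅ (N : ℕ) (D : Finset (Fin n → ℤ)) (_ : 2 ≤ N ∧ ∃ A : (Fin n → ℤ) → Fin n → ℤ, Digits k N A D),
    ((Real.log D.card / Real.log N : ℝ) : EReal)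

/-- the real vector of an integer vector -/
noncomputable def toE {n : ℕ} (d : Fin n → ℤ) : EuclideanSpace ℝ (Fin n) :=
  WithLp.toLp 2 fun c => (d c : ℝ)

/-! ### The comparison with the definitions of the library files (they are the same) -/

theorem fM_eq (n k : ℕ) : fM n k = N326.AV.fM n k := rfl
theorem fL_eq (n k : ℕ) : fL n k = N326.AV.fL n k := rfl
theorem fA_eq (n k : ℕ) : fA n k = N326.AV.fA n k := rfl
theorem fD_eq (n k : ℕ) : fD n k = N326.AV.fD n k := rfl

theorem dims (n N : ℕ) (D : Finset (Fin n → ℤ)) (hN : 2 ≤ N) (hD : D.Nonempty) :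
    assouadDim (digitSet N D) = ((dimH (digitSet N D) : ℝ≥0∞) : EReal) ∧
      upperMinkowski (digitSet N D) = ((dimH (digitSet N D) : ℝ≥0∞) : EReal) ∧
      lowerMinkowski (digitSet N D) = ((dimH (digitSet N D) : ℝ≥0∞) : EReal) :=
  N326.AV.dims_eq hN hD

theorem compact (n N : ℕ) (D : Finset (Fin n → ℤ)) (hN : 2 ≤ N) :
    IsCompact (digitSet N D) := N326.AV.digitSet_isCompact hN D

theorem progressions {n k N : ℕ} {A : (Fin n → ℤ) → Fin n → ℤ} {D : Finset (Fin n → ℤ)}
    (hk : 1 ≤ k) (hN : 2 ≤ N) (hD : Digits k N A D) : HasProgressions k (digitSet N D) :=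
  N326.AV.digitSet_hasProgressions hN hk hD

theorem nonempty_of_digits {n k N : ℕ} {A : (Fin n → ℤ) → Fin n → ℤ} {D : Finset (Fin n → ℤ)}
    (hk : 1 ≤ k) (hN : 2 ≤ N) (hD : Digits k N A D) : D.Nonempty :=
  ⟨_, hD 0 (fun c => ⟨le_rfl, by simp; omega⟩) 0 (by omega)⟩

theorem assouad_le {n N : ℕ} {D : Finset (Fin n → ℤ)} (hN : 2 ≤ N) (hD : D.Nonempty) :
    assouadDim (digitSet N D) ≤ ((Real.log D.card / Real.log N : ℝ) : EReal) := by
  have hN' : (2 : ℝ) ≤ N := by exact_mod_cast hN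
  have hs0 : 0 ≤ Real.log D.card / Real.log N :=
    div_nonneg (Real.log_natCast_nonneg _) (Real.log_nonneg (by linarith))
  have h := N326.AV.assouad_digitSet hN hD
  unfold assouadDim
  exact (iInf_le _ _).trans (iInf_le _ ⟨hs0, h⟩)

theorem fH_eq (n k : ℕ) (hk : 1 ≤ k) : fH n k = fM n k := by
  refine le_antisymm ?_ ?_
  · rw [fM_eq, ← (N326.AV.all_eq n k hk).2.2, ← fD_eq]
    unfold fD
    refine le_iInf fun N => le_iInf fun D => le_iInf fun h => ?_
    obtain ⟨hN, A, hD⟩ := h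
    have hne := nonempty_of_digits hk hN hD
    refine le_trans ?_ (assouad_le hN hne)
    rw [(dims n N D hN hne).1]
    unfold fH
    exact (iInf_le _ N).trans ((iInf_le _ D).trans ((iInf_le _ hN).trans ((iInf_le _ hne).trans
      (iInf_le _ (progressions hk hN hD)))))
  · unfold fH
    refine le_iInf fun N => le_iInf fun D => le_iInf fun hN => le_iInf fun hne => le_iInf fun hP => ?_
    rw [← (dims n N D hN hne).2.1]
    unfold fM
    exact (iInf_le _ _).trans ((iInf_le _ (compact n N D hN).isBounded).trans (iInf_le _ hP))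

/-- the conjecture for self-similar sets -/
theorem tendsto_iff (n : ℕ) :
    Tendsto (fun k => fM n k) atTop (𝓝 (n : EReal)) ↔
      ∀ ε : ℝ, 0 < ε → ∃ k : ℕ, ∀ (N : ℕ) (D : Finset (Fin n → ℤ)), 2 ≤ N → D.Nonempty →
        HasProgressions k (digitSet N D) →
        (((n : ℝ) - ε : ℝ) : EReal) ≤ ((dimH (digitSet N D) : ℝ≥0∞) : EReal) := by
  have hnn : (n : EReal) = (((n : ℝ) : ℝ) : EReal) := by norm_cast
  constructor
  · intro h ε hε
    have h1 : (((n : ℝ) - ε : ℝ) : EReal) < (n : EReal) := by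
      rw [hnn, EReal.coe_lt_coe_iff]
      linarith
    obtain ⟨k, hk⟩ := (h.eventually (lt_mem_nhds h1)).exists
    refine ⟨k, fun N D hN hne hP => ?_⟩
    rw [← (dims n N D hN hne).2.1]
    refine hk.le.trans ?_
    unfold fM
    exact (iInf_le _ _).trans ((iInf_le _ (compact n N D hN).isBounded).trans (iInf_le _ hP))
  · intro h
    refine (N326.AV.tendsto_iff n).mpr fun ε hε => ?_
    obtain ⟨k, hk⟩ := h ε hε
    refine ⟨k + 1, fun N A D hN hD => ?_⟩
    have hk1 : 1 ≤ k + 1 := by omega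
    refine hk N D hN (nonempty_of_digits hk1 hN hD) ?_
    have hP : HasProgressions (k + 1) (digitSet N D) := progressions hk1 hN hD
    intro r hr
    obtain ⟨a, ha⟩ := hP r hr
    exact ⟨a, fun j hj => ha j (by omega)⟩

theorem result :
    -- the infima of the four dimensions agree, and are a discrete exponent
    (∀ n k : ℕ, 1 ≤ k → fA n k = fM n k ∧ fL n k = fM n k ∧ fH n k = fM n k ∧ fD n k = fM n k) ∧
    -- every real number above `fM` is reached by one finite set of digits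
    (∀ (n k : ℕ) (s : ℝ), 1 ≤ k → fM n k < (s : EReal) →
      ∃ (N : ℕ) (A : (Fin n → ℤ) → Fin n → ℤ) (D : Finset (Fin n → ℤ)), 2 ≤ N ∧ Digits k N A D ∧
        Real.log D.card / Real.log N < s) ∧
    -- the set of such digits: self-similar, with the progressions chosen digit by digit, regular
    (∀ (n k N : ℕ) (A : (Fin n → ℤ) → Fin n → ℤ) (D : Finset (Fin n → ℤ)), 1 ≤ k → 2 ≤ N →
      Digits k N A D →
      (∃ C : ℝ, RegularAbove (digitSet N D) C (Real.log D.card / Real.log N)) ∧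
      (∀ r : EuclideanSpace ℝ (Fin n), (∀ i, r i ∈ Set.Icc (0 : ℝ) 1) →
        ∃ v : ℕ → Fin n → ℤ, (∀ i c, 0 ≤ v i c ∧ v i c < N) ∧ r = val N v) ∧
      (∀ v : ℕ → Fin n → ℤ, (∀ i c, 0 ≤ v i c ∧ v i c < N) → ∀ j : ℕ, j < k →
        val N (fun i => A (v i)) + (j : ℝ) • val N v ∈ digitSet N D)) ∧
    -- the digit sets are compact and self-similar, and all their dimensions coincide
    (∀ (n N : ℕ) (D : Finset (Fin n → ℤ)), 2 ≤ N → D.Nonempty →
      IsCompact (digitSet N D) ∧ (digitSet N D).Nonempty ∧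
      digitSet N D = ⋃ d ∈ D, (fun x => ((N : ℝ)⁻¹) • (x + toE d)) '' digitSet N D ∧
      assouadDim (digitSet N D) = ((dimH (digitSet N D) : ℝ≥0∞) : EReal) ∧
      upperMinkowski (digitSet N D) = ((dimH (digitSet N D) : ℝ≥0∞) : EReal) ∧
      lowerMinkowski (digitSet N D) = ((dimH (digitSet N D) : ℝ≥0∞) : EReal)) ∧
    -- three forms of the conjecture in each dimension
    (∀ n : ℕ, (Tendsto (fun k => fM n k) atTop (𝓝 (n : EReal)) ↔
        Tendsto (fun k => fA n k) atTop (𝓝 (n : EReal))) ∧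
      (Tendsto (fun k => fM n k) atTop (𝓝 (n : EReal)) ↔
        ∀ ε : ℝ, 0 < ε → ∃ k : ℕ, ∀ (N : ℕ) (D : Finset (Fin n → ℤ)), 2 ≤ N → D.Nonempty →
          HasProgressions k (digitSet N D) →
          (((n : ℝ) - ε : ℝ) : EReal) ≤ ((dimH (digitSet N D) : ℝ≥0∞) : EReal))) ∧
    -- the conjecture on the line for sets with small regularity constants
    (∀ ε : ℝ, 0 < ε → ∃ k₀ : ℕ, ∀ k : ℕ, k₀ ≤ k → ∀ C : ℝ, C ≤ (k : ℝ) ^ (ε / 4) →
      ∀ (B : Set (EuclideanSpace ℝ (Fin 1))) (x₀ : EuclideanSpace ℝ (Fin 1)) (s : ℝ),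
        B ⊆ Metric.closedBall x₀ (C * k) → HasProgressions k B → RegularAbove B C s → 1 - ε ≤ s) := by
  refine ⟨fun n k hk => ?_, fun n k s hk hs => ?_, fun n k N A D hk hN hD => ⟨?_, ?_, ?_⟩,
    fun n N D hN hD => ⟨compact n N D hN, N326.AV.digitSet_nonempty hD,
      N326.AV.digitSet_selfSimilar hN D, dims n N D hN hD⟩, fun n => ⟨?_, tendsto_iff n⟩, ?_⟩
  · have h := N326.AV.all_eq n k hk
    exact ⟨h.1, h.2.1, fH_eq n k hk, h.2.2⟩
  · rw [fM_eq, ← (N326.AV.all_eq n k hk).2.2] at hs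
    unfold N326.AV.fD at hs
    simp only [iInf_lt_iff] at hs
    obtain ⟨N, D, ⟨hN, A, hD⟩, h⟩ := hs
    exact ⟨N, A, D, hN, hD, by exact_mod_cast h⟩
  · exact N326.AV.assouad_digitSet hN (nonempty_of_digits hk hN hD)
  · intro r hr
    exact N326.AV.exists_digits hN hr
  · intro v hv j hj
    exact (N326.AV.digitSet_progression hN hk hD v hv j hj).2
  · have h : (fun k => fM n k) =ᶠ[atTop] fun k => fA n k := by
      filter_upwards [eventually_ge_atTop 1] with k hk
      exact ((N326.AV.all_eq n k hk).1).symm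
    exact tendsto_congr' h
  · intro ε hε
    exact N326.AV.regularity_constant ε hε

end Pool.Agent.Results.MP_4b405e_nt.AssouadVersion
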