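import Pool.Agent.N269.MX.AkcTree

set_option autoImplicit false

/-!
# MP_4b405e: progressions whose first terms are given by a labelled tree with few subtrees

Suppose that `B ⊆ ℝ^d` contains, for every `r` in a set `V ⊆ [0,1)^d` of positive outer measure, the
`k`-term progression `a(r), a(r) + r, ..., a(r) + (k-1) r` with `k = b^m`, where the first terms are
given by a labelling of the nodes of the tree of the finite words `r_0 r_1 ... r_n` of base `b` digit
vectors by integer vectors,

  `a(r) = ∑ b^(-(n+1)) lab (r_0 r_1 ... r_n)`,  `r_0, r_1, ...` the digits of `r`.

(Every function which is Lipschitz for the `b`-adic distance is of this form, with bounded labels.)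
If for every level there are at most `N` different labelled subtrees of height `m` below the nodes of
this level, then the Minkowski dimension of `B` is at least

  `d - ((d + 1) log N + C log (m + 1)) / (m log b)`,

where `C` depends on `d` and `b` only: neither on `B` nor on the size of the labels (if `k` is large
compared with the labels, the statement is easy).  So the arithmetic Kakeya conjecture holds for these
sets: if the number of the subtrees of height `m` on every level is at most `N(m)`, a fixed function
with `log N(m) = o(m)`, the infimum of the dimensions tends to `d` as `k = b^m → ∞`.  For example,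
the first terms may be computed by a read-once branching program of bounded width `N` which reads the
digits of the common difference and writes integer vectors (with tables which depend on the time).

Proof.  (1) The maximal estimate over `(ℤ/b^m)^(d+1)` with a loss which is polynomial in `m`:
weighted rank method over `ℤ[ζ]` for parts of lines, averages over shears, dyadic decomposition,
products of rings.  (2) By duality the sum of the powers `q = (d+1)/d` of the multiplicities of the
residues of `A(w) + t₀ D(w)` modulo `b^m`, for the words `w` of length `m` and the types of subtrees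
on one level, is at most `N^q` times nearly optimal in the mean over `t₀`; by the inequality
`log x ≤ x - 1` there is for all `J` one `t₀ < b^m` for which the product over `J` levels is nearly
optimal.  (3) For the words of length `m J` the power sum at the integer height `t₀` is at most this
product: the type of the last block and the block determine the residue.  (4) Hölder's inequality.
-/

open Set MeasureTheory
open scoped ENNReal

namespace Pool.Agent.Results.MP_4b405e_nt.LabelledTrees

/-- Euclidean space `ℝ^n`. -/
abbrev E (n : ℕ) : Type := EuclideanSpace ℝ (Fin n)

/-- The finite words of vectors of `d` digits in base `b`: the nodes of the tree. -/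
abbrev Word (d b : ℕ) : Type := List (Fin d → Fin b)

/-- The word of the first `n` base `b` digit vectors of `r ∈ [0,1)^d`. -/
noncomputable def word {d : ℕ} (b : ℕ) [NeZero b] (r : Fin d → ℝ) (n : ℕ) : Word d b :=
  List.ofFn fun (j : Fin n) (i : Fin d) => Real.digits (r i) b j

/-- The function given by a labelled tree: `a(r) = ∑ b^(-(n+1)) lab (r_0 r_1 ... r_n)`. -/
noncomputable def fn {d b : ℕ} [NeZero b] (lab : Word d b → Fin d → ℤ) (r : Fin d → ℝ)
    (i : Fin d) : ℝ :=
  ∑' n, (lab (word b r (n + 1)) i : ℝ) / (b : ℝ) ^ (n + 1)

/-- The labelled subtree of height `m` below the node `u`. -/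
def subtree {d b : ℕ} (lab : Word d b → Fin d → ℤ) (m : ℕ) (u : Word d b) :
    {w : Word d b // w.length ≤ m} → Fin d → ℤ := fun w => lab (u ++ w)

/-- The number of different labelled subtrees of height `m` below the nodes of level `l`. -/
noncomputable def complexity {d b : ℕ} (lab : Word d b → Fin d → ℤ) (m l : ℕ) : ℕ :=
  (subtree lab m '' {u | u.length = l}).ncard

/-- **The arithmetic Kakeya conjecture for labelled trees.**  There is `C`, depending on `d` and `b`
only, such that if the labels are bounded (by an arbitrary `A`), if on every level there are at most
`N` different subtrees of height `m`, and if `B ⊆ ℝ^d` contains the points `a(r) + i r`, `i < b^m`,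
for all `r` in a set `V ⊆ [0,1)^d` of positive outer measure, then every cover of `B` by finitely
many sets of diameter at most `δ < 1` has at least `c δ^(-s)` members, where
`s = d - ((d + 1) log N + C log (m + 1)) / (m log b)` and `c > 0` does not depend on `δ`; hence the
(lower, a fortiori the upper) Minkowski dimension of `B` is at least `s`. -/
theorem result (d b : ℕ) [NeZero b] (hd : 1 ≤ d) (hb : 2 ≤ b) :
    ∃ C : ℝ, ∀ (m N A : ℕ) (lab : Word d b → Fin d → ℤ), 1 ≤ m →
      (∀ u i, |lab u i| ≤ A) → (∀ l, complexity lab m l ≤ N) →
      ∀ (B : Set (E d)) (V : Set (Fin d → ℝ)),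
      (∀ r ∈ V, ∀ i, r i ∈ Ico (0 : ℝ) 1) → volume V ≠ 0 →
      (∀ r ∈ V, ∀ i : ℕ, i < b ^ m → (WithLp.toLp 2 fun j => fn lab r j + i * r j) ∈ B) →
      ∃ c : ℝ, 0 < c ∧ ∀ δ : ℝ, 0 < δ → δ < 1 → ∀ S : Finset (Set (E d)),
        (∀ Y ∈ S, ∀ x ∈ Y, ∀ y ∈ Y, dist x y ≤ δ) → B ⊆ ⋃ Y ∈ S, Y →
        c * δ ^ (-((d : ℝ) - (((d : ℝ) + 1) * Real.log N + C * Real.log (m + 1)) /
          (m * Real.log b))) ≤ S.card :=
  Pool.Agent.N269.MX.akc_tree hd hb

end Pool.Agent.Results.MP_4b405e_nt.LabelledTrees
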